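import Mathlib
import Pool.Agent.R494.SPL4
import Pool.Agent.N233.GM.Law2

/-! Models with a growing sieve by the primes of a set `P`, and the values `2^x + 2^y + 2^z + 1`
(helper15; after Pool.Agent.N233.GM and Pool.Agent.R494.SPL4). -/

set_option autoImplicit false
set_option linter.unusedSectionVars false

namespace Pool.Agent.D0H15.GS

open Filter Asymptotics MeasureTheory Pool.Agent.R494.SPL Finset
open Pool.Agent.R528.RM
open scoped Topology

/-- `m` has no prime factor in `P` at most `z m` -/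
def Rough (P : Set ℕ) (z : ℕ → ℕ) (m : ℕ) : Prop := ∀ q, q.Prime → q ∈ P → q ≤ z m → ¬ q ∣ m

open Classical in
/-- `∏ (1 - 1 / q)⁻¹` over the primes `q ≤ x` in `P` -/
noncomputable def W (P : Set ℕ) (x : ℕ) : ℝ :=
  ∏ q ∈ (Finset.Icc 1 x).filter (fun q => q.Prime ∧ q ∈ P), (1 - (q : ℝ)⁻¹)⁻¹

open Classical in
/-- the density -/
noncomputable def rho (P : Set ℕ) (z : ℕ → ℕ) (m : ℕ) : ℝ :=
  if Rough P z m then W P (z m) / Real.log m else 0

open Classical in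
lemma W_ge (P : Set ℕ) (x : ℕ) : 1 ≤ W P x := by
  unfold W
  have : ∀ q ∈ (Finset.Icc 1 x).filter (fun q => q.Prime ∧ q ∈ P), 1 ≤ (1 - (q : ℝ)⁻¹)⁻¹ :=
    fun q hq => Pool.Agent.N233.GM.fac_ge q (mem_filter.1 hq).2.1
  calc (1 : ℝ) = ∏ q ∈ (Finset.Icc 1 x).filter (fun q => q.Prime ∧ q ∈ P), (1 : ℝ) := by simp
    _ ≤ _ := Finset.prod_le_prod (fun _ _ => zero_le_one) this

open Classical in
lemma W_le (P : Set ℕ) (x : ℕ) : W P x ≤ Pool.Agent.N233.GM.W x := by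
  unfold W Pool.Agent.N233.GM.W
  have hsub : (Finset.Icc 1 x).filter (fun q => q.Prime ∧ q ∈ P) ⊆ (Finset.Icc 1 x).filter Nat.Prime := by
    intro q hq
    obtain ⟨h1, h2⟩ := mem_filter.1 hq
    exact mem_filter.2 ⟨h1, h2.1⟩
  rw [← Finset.prod_sdiff hsub]
  have h1 : (1 : ℝ) ≤ ∏ q ∈ (Finset.Icc 1 x).filter Nat.Prime \ (Finset.Icc 1 x).filter (fun q => q.Prime ∧ q ∈ P),
      (1 - (q : ℝ)⁻¹)⁻¹ := by
    calc (1 : ℝ) = ∏ q ∈ (Finset.Icc 1 x).filter Nat.Prime \ (Finset.Icc 1 x).filter (fun q => q.Prime ∧ q ∈ P),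
          (1 : ℝ) := by simp
      _ ≤ _ := Finset.prod_le_prod (fun _ _ => zero_le_one)
        fun q hq => Pool.Agent.N233.GM.fac_ge q (mem_filter.1 (Finset.mem_sdiff.1 hq).1).2
  have h2 : (0 : ℝ) ≤ ∏ q ∈ (Finset.Icc 1 x).filter (fun q => q.Prime ∧ q ∈ P), (1 - (q : ℝ)⁻¹)⁻¹ :=
    prod_nonneg fun q hq => le_trans zero_le_one (Pool.Agent.N233.GM.fac_ge q (mem_filter.1 hq).2.1)
  nlinarith

/-- the sieve is short -/
lemma short (P : Set ℕ) (c : ℝ) (z : ℕ → ℕ)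
    (hz : ∀ᶠ n : ℕ in atTop, (z n : ℝ) ≤ c * Real.log (Real.log n) ^ 2) :
    ∀ᶠ n : ℕ in atTop, W P (z n) / Real.log n < 1 := by
  filter_upwards [Pool.Agent.N233.GM.short c z hz] with n hn
  refine lt_of_le_of_lt ?_ hn
  apply div_le_div_of_nonneg_right (W_le P _) (Real.log_natCast_nonneg n)

open Classical in
/-- the density, at most one -/
noncomputable def rho1 (P : Set ℕ) (z : ℕ → ℕ) (m : ℕ) : ℝ :=
  if Rough P z m then min 1 (W P (z m) / Real.log m) else 0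

lemma rho1_bounds (P : Set ℕ) (z : ℕ → ℕ) (n : ℕ) : 0 ≤ rho1 P z n ∧ rho1 P z n ≤ 1 := by
  unfold rho1
  have h1 : 0 ≤ W P (z n) := zero_le_one.trans (W_ge _ _)
  have h2 := Real.log_natCast_nonneg n
  split_ifs
  · exact ⟨by positivity, min_le_left _ _⟩
  · exact ⟨le_rfl, zero_le_one⟩

lemma rho1_eq (P : Set ℕ) (z : ℕ → ℕ) (n : ℕ) (h : W P (z n) / Real.log n < 1) : rho1 P z n = rho P z n := by
  unfold rho1 rho
  rw [min_eq_right h.le]

lemma rho_nonneg (P : Set ℕ) (z : ℕ → ℕ) (n : ℕ) : 0 ≤ rho P z n := by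
  unfold rho
  have h1 : 0 ≤ W P (z n) := zero_le_one.trans (W_ge _ _)
  have h2 := Real.log_natCast_nonneg n
  split_ifs
  · positivity
  · exact le_rfl

section

variable {Ω : Type} {m0 : MeasurableSpace Ω} {μ : Measure Ω} [IsProbabilityMeasure μ]
  {ℱ : Filtration ℕ m0} {A : ℕ → Set Ω}

/-- the densities follow the profile -/
lemma profile (P : Set ℕ) (z : ℕ → ℕ) (hV : ∀ᶠ n : ℕ in atTop, W P (z n) / Real.log n < 1)
    (hcop : ∀ n, ¬ Rough P z n → A n = ∅)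
    (hd : ∀ᵐ ω ∂μ, Tendsto (fun n : ℕ => Pool.Agent.R528.RM.dens μ ℱ A n ω * Real.log n / W P (z (n + 1)))
      (atTop ⊓ 𝓟 {n : ℕ | Rough P z (n + 1)}) (𝓝 1)) :
    ∀ᵐ ω ∂μ, ∀ ε : ℝ, 0 < ε → ∀ᶠ n : ℕ in atTop,
      |Pool.Agent.R528.RM.dens μ ℱ A n ω - rho1 P z (n + 1)| ≤ ε * rho1 P z (n + 1) := by
  have hz' : ∀ᵐ ω ∂μ, ∀ n, ¬ Rough P z (n + 1) → Pool.Agent.R528.RM.dens μ ℱ A n ω = 0 := by
    rw [ae_all_iff]
    intro n
    by_cases h : Rough P z (n + 1)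
    · exact Eventually.of_forall fun ω h2 => absurd h h2
    · have h1 : Pool.Agent.R528.RM.dens μ ℱ A n =ᵐ[μ] 0 := by
        unfold Pool.Agent.R528.RM.dens
        rw [hcop _ h, Set.indicator_empty]
        rw [show (fun _ : Ω => (0 : ℝ)) = 0 from rfl, condExp_zero]
      filter_upwards [h1] with ω hω _
      exact hω
  filter_upwards [hz', hd] with ω hω1 hω2 ε hε
  have h1 : Tendsto (fun n : ℕ => Pool.Agent.R528.RM.dens μ ℱ A n ω * Real.log ((n + 1 : ℕ) : ℝ) / W P (z (n + 1)))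
      (atTop ⊓ 𝓟 {n : ℕ | Rough P z (n + 1)}) (𝓝 1) := by
    have h2 := hω2.mul (log_succ_ratio.mono_left (inf_le_left : atTop ⊓ 𝓟 {n : ℕ | Rough P z (n + 1)} ≤ atTop))
    rw [mul_one] at h2
    refine h2.congr' ?_
    apply Filter.Eventually.filter_mono inf_le_left
    filter_upwards [eventually_gt_atTop 1] with n hn
    have hn' : (1 : ℝ) < n := by exact_mod_cast hn
    have hl : 0 < Real.log (n : ℝ) := Real.log_pos hn'
    field_simp
  have h2 := (Metric.tendsto_nhds.1 h1) ε hε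
  rw [eventually_inf_principal] at h2
  have h3 : ∀ᶠ n : ℕ in atTop, W P (z (n + 1)) / Real.log ((n + 1 : ℕ) : ℝ) < 1 :=
    (tendsto_add_atTop_nat 1).eventually hV
  filter_upwards [h2, h3, eventually_gt_atTop 2] with n hn hn2 hn3
  by_cases hcp : Rough P z (n + 1)
  · have h4 := hn hcp
    have hl : 0 < Real.log ((n + 1 : ℕ) : ℝ) := Real.log_pos (by push_cast; have : (2 : ℝ) < n := by exact_mod_cast hn3
                                                                 linarith)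
    have hV : 0 < W P (z (n + 1)) := lt_of_lt_of_le one_pos (W_ge _ _)
    have e1 : rho1 P z (n + 1) = W P (z (n + 1)) / Real.log ((n + 1 : ℕ) : ℝ) := by
      unfold rho1
      rw [if_pos hcp, min_eq_right hn2.le]
    rw [e1]
    rw [Real.dist_eq] at h4
    have e2 : Pool.Agent.R528.RM.dens μ ℱ A n ω - W P (z (n + 1)) / Real.log ((n + 1 : ℕ) : ℝ) =
        (Pool.Agent.R528.RM.dens μ ℱ A n ω * Real.log ((n + 1 : ℕ) : ℝ) / W P (z (n + 1)) - 1) *
          (W P (z (n + 1)) / Real.log ((n + 1 : ℕ) : ℝ)) := by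
      field_simp
    have h5 : 0 < W P (z (n + 1)) / Real.log ((n + 1 : ℕ) : ℝ) := by positivity
    rw [e2, abs_mul, abs_of_pos h5]
    exact mul_le_mul_of_nonneg_right h4.le h5.le
  · rw [hω1 n hcp]
    have e1 : rho1 P z (n + 1) = 0 := by
      unfold rho1
      rw [if_neg hcp]
    rw [e1]
    simp

/-- the quadruples with large value -/
def big (n : ℕ) : Finset (ℕ × ℕ × ℕ × ℕ) := (quad3 n).filter (fun v => ¬ val3 v < n)

/-- the law of large numbers for the large values -/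
theorem lawG (hA : ∀ n, MeasurableSet[ℱ n] (A n)) (P : Set ℕ) (z : ℕ → ℕ)
    (hprof : ∀ᵐ ω ∂μ, ∀ ε : ℝ, 0 < ε → ∀ᶠ n : ℕ in atTop,
      |dens μ ℱ A n ω - rho1 P z (n + 1)| ≤ ε * rho1 P z (n + 1))
    (G : ℕ → Prop)
    (hlow : ∀ᶠ n : ℕ in atTop, G n → (n : ℝ) ^ (1 / 4 : ℝ) ≤ ∑ v ∈ big n, rho1 P z (val3 v)) :
    ∀ᵐ ω ∂μ, ∀ η : ℝ, 0 < η → ∀ᶠ n : ℕ in atTop, G n →
      |∑ v ∈ big n, In A (val3 v) ω - ∑ v ∈ big n, rho1 P z (val3 v)| ≤
        η * ∑ v ∈ big n, rho1 P z (val3 v) := by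
  classical
  have h := weighted_law (μ := μ) (ℱ := ℱ) (A := A) hA (fun n => (rho1_bounds P z n).1) hprof
    big val3 (fun _ => 12) 1
    (by
      filter_upwards [eventually_ge_atTop 12] with x hx
      rw [pow_one]
      exact hx)
    (Eventually.of_forall fun n Q => (card_le_card (filter_subset_filter _ (filter_subset _ _))).trans (fibre3 n Q))
    id tendsto_id
    (Eventually.of_forall fun n v hv => not_lt.1 (mem_filter.1 hv).2)
  filter_upwards [h] with ω hω η hη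
  obtain ⟨K, hK0, hK⟩ := hω (η / 2) (by positivity)
  have e1 := (isLittleO_log_rpow_atTop (show (0 : ℝ) < 1 / 4 by norm_num)).bound
    (show (0 : ℝ) < η / 2 / (K * 12 + 1) by positivity)
  filter_upwards [hK, hlow, tendsto_natCast_atTop_atTop.eventually e1, eventually_ge_atTop 1] with n h1 h3 h2 h4 hn
  have h5 := h3 hn
  have hn1 : (1 : ℝ) ≤ n := by exact_mod_cast h4
  have hn0 : (0 : ℝ) < n := by linarith
  have hl : 0 ≤ Real.log (n : ℝ) := Real.log_nonneg hn1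
  rw [Real.norm_eq_abs, Real.norm_eq_abs, abs_of_nonneg hl, abs_of_nonneg (Real.rpow_nonneg hn0.le _)] at h2
  have h6 : K * ((12 : ℕ) * Real.log n) ≤ η / 2 * (n : ℝ) ^ (1 / 4 : ℝ) := by
    push_cast
    calc K * (12 * Real.log n) = (K * 12) * Real.log n := by ring
      _ ≤ (K * 12 + 1) * (η / 2 / (K * 12 + 1) * (n : ℝ) ^ (1 / 4 : ℝ)) := by
          apply mul_le_mul _ h2 hl (by positivity)
          linarith
      _ = _ := by field_simp
  have h7 : η / 2 * (n : ℝ) ^ (1 / 4 : ℝ) ≤ η / 2 * ∑ v ∈ big n, rho1 P z (val3 v) :=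
    mul_le_mul_of_nonneg_left h5 (by positivity)
  linarith

end

/-- the number of quadruples with a small value -/
lemma small_card : ∀ᶠ n : ℕ in atTop, (((quad3 n).filter (fun v => val3 v < n)).card : ℝ) ≤ 27 * Real.log n ^ 3 := by
  filter_upwards [log_cube] with n h
  exact le_trans (by exact_mod_cast small3 n) h.1

lemma log_small (C e : ℝ) (he : 0 < e) : ∀ᶠ n : ℕ in atTop, C * Real.log n ^ 3 ≤ (n : ℝ) ^ e := by
  have e1 := (isLittleO_log_rpow_rpow_atTop (3 : ℝ) he).bound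
    (show (0 : ℝ) < 1 / (|C| + 1) by positivity)
  filter_upwards [tendsto_natCast_atTop_atTop.eventually e1, eventually_ge_atTop 1] with n h2 h4
  have hn1 : (1 : ℝ) ≤ n := by exact_mod_cast h4
  have hn0 : (0 : ℝ) < n := by linarith
  have hl : 0 ≤ Real.log (n : ℝ) := Real.log_nonneg hn1
  rw [Real.norm_eq_abs, Real.norm_eq_abs, abs_of_nonneg (Real.rpow_nonneg hl _),
    abs_of_nonneg (Real.rpow_nonneg hn0.le _)] at h2
  have e5 : Real.log n ^ (3 : ℝ) = Real.log n ^ (3 : ℕ) := by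
    rw [← Real.rpow_natCast]; norm_num
  rw [e5] at h2
  calc C * Real.log n ^ 3 ≤ (|C| + 1) * Real.log n ^ 3 := by
        apply mul_le_mul_of_nonneg_right _ (by positivity)
        have := le_abs_self C
        linarith
    _ ≤ (|C| + 1) * (1 / (|C| + 1) * (n : ℝ) ^ e) := by gcongr
    _ = (n : ℝ) ^ e := by field_simp

/-- from many rough quadruples to the lower bound of the expectation -/
lemma low_big (ε : ℝ) (hε : 0 < ε) (hε4 : ε ≤ 1 / 4) (P : Set ℕ) (z : ℕ → ℕ) (G : ℕ → Prop)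
    (h : ∀ᶠ n : ℕ in atTop, G n → ∃ T ⊆ quad3 n, (n : ℝ) ^ (1 - ε / 2) ≤ (T.card : ℝ) ∧
      ∀ v ∈ T, ¬ val3 v < n → Rough P z (val3 v)) :
    ∀ᶠ n : ℕ in atTop, G n → 2 * (n : ℝ) ^ (1 / 2 - ε) ≤ ∑ v ∈ big n, rho1 P z (val3 v) := by
  classical
  have e2 : ∀ᶠ n : ℕ in atTop, 16 ≤ (n : ℝ) ^ (ε / 2) :=
    ((tendsto_rpow_atTop (by positivity)).comp tendsto_natCast_atTop_atTop).eventually_ge_atTop _
  filter_upwards [h, e2, small_card, log_small 54 (1 - ε / 2) (by linarith), eventually_ge_atTop 1]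
    with n h1 h2 h3 h4 h5 hn
  obtain ⟨T, hsub, hT1, hT2⟩ := h1 hn
  have hn1 : (1 : ℝ) ≤ n := by exact_mod_cast h5
  have hn0 : (0 : ℝ) < n := by linarith
  have hnh : 1 ≤ (n : ℝ) ^ (1 / 2 : ℝ) := Real.one_le_rpow hn1 (by norm_num)
  set T' := T.filter (fun v => ¬ val3 v < n) with hT'
  have hsub' : T' ⊆ big n := by
    intro v hv
    obtain ⟨g1, g2⟩ := mem_filter.1 hv
    exact mem_filter.2 ⟨hsub g1, g2⟩
  have hcard : (n : ℝ) ^ (1 - ε / 2) / 2 ≤ (T'.card : ℝ) := by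
    have g1 : T.card = (T.filter (fun v => val3 v < n)).card + T'.card :=
      (card_filter_add_card_filter_not _).symm
    have g2 : ((T.filter (fun v => val3 v < n)).card : ℝ) ≤ 27 * Real.log n ^ 3 := by
      refine le_trans ?_ h3
      exact_mod_cast card_le_card (filter_subset_filter _ hsub)
    have g3 : (T.card : ℝ) = ((T.filter (fun v => val3 v < n)).card : ℝ) + (T'.card : ℝ) := by exact_mod_cast g1
    linarith
  have h6 : ∀ v ∈ T', 1 / (4 * (n : ℝ) ^ (1 / 2 : ℝ)) ≤ rho1 P z (val3 v) := by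
    intro v hv
    obtain ⟨k1, k2⟩ := mem_filter.1 hv
    obtain ⟨g1, g2⟩ := log_val3 h5 (hsub k1)
    unfold rho1
    rw [if_pos (hT2 v k1 k2)]
    apply le_min
    · rw [div_le_one (by linarith)]
      linarith
    · have := W_ge P (z (val3 v))
      have g3 : 0 < Real.log (val3 v : ℝ) := by linarith
      gcongr
  calc 2 * (n : ℝ) ^ (1 / 2 - ε) = 16 * ((n : ℝ) ^ (1 / 2 - ε) / 8) := by ring
    _ ≤ (n : ℝ) ^ (ε / 2) * ((n : ℝ) ^ (1 / 2 - ε) / 8) := by gcongr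
    _ = ((n : ℝ) ^ (1 - ε / 2) / 2) * (1 / (4 * (n : ℝ) ^ (1 / 2 : ℝ))) := by
        have e1 : (n : ℝ) ^ (1 - ε / 2) = (n : ℝ) ^ (ε / 2) * (n : ℝ) ^ (1 / 2 - ε) * (n : ℝ) ^ (1 / 2 : ℝ) := by
          rw [← Real.rpow_add hn0, ← Real.rpow_add hn0]
          congr 1
          ring
        rw [e1]
        field_simp
        norm_num
    _ ≤ T'.card * (1 / (4 * (n : ℝ) ^ (1 / 2 : ℝ))) := by gcongr
    _ = ∑ _v ∈ T', 1 / (4 * (n : ℝ) ^ (1 / 2 : ℝ)) := by rw [Finset.sum_const, nsmul_eq_mul]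
    _ ≤ ∑ v ∈ T', rho1 P z (val3 v) := Finset.sum_le_sum h6
    _ ≤ _ := Finset.sum_le_sum_of_subset_of_nonneg hsub' fun v _ _ => (rho1_bounds P z _).1

/-- a bound for all densities at the values -/
lemma rho_bound (P : Set ℕ) (z : ℕ → ℕ) (hV : ∀ᶠ n : ℕ in atTop, W P (z n) / Real.log n < 1) :
    ∃ C : ℝ, 1 ≤ C ∧ ∀ m : ℕ, rho P z m ≤ C := by
  obtain ⟨m1, hm1⟩ := eventually_atTop.1 hV
  refine ⟨1 + ∑ m ∈ range m1, rho P z m, ?_, ?_⟩
  · have : 0 ≤ ∑ m ∈ range m1, rho P z m := sum_nonneg fun m _ => rho_nonneg P z m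
    linarith
  · intro m
    have h0 : 0 ≤ ∑ m ∈ range m1, rho P z m := sum_nonneg fun m _ => rho_nonneg P z m
    by_cases h : m < m1
    · have := single_le_sum (f := fun m => rho P z m) (fun m _ => rho_nonneg P z m) (mem_range.2 h)

      linarith
    · have h1 := hm1 m (not_lt.1 h)
      rw [← rho1_eq P z m h1]
      have := (rho1_bounds P z m).2
      linarith

end Pool.Agent.D0H15.GS
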